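import Mathlib

/-!
Every even polynomial `E` of degree four gives a Lienard system `x' = y - E(x)`, `y' = -x` with a
global real-analytic first integral.
-/

namespace Pool.Agent.Results.MP_b09cb0_an.QuarticFirstIntegral

open Set Filter Topology

/-- The Lienard system `x' = y - E(x)`, `y' = -x` has a global analytic first integral: a
non-constant function `H`, real-analytic on all of `ℝ²`, with
`(y - E(x)) ∂H/∂x - x ∂H/∂y = 0` everywhere. -/
def HasGlobalAnalyticFirstIntegral (E : Polynomial ℝ) : Prop :=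
  ∃ H : ℝ × ℝ → ℝ, AnalyticOnNhd ℝ H Set.univ ∧ (∃ p q, H p ≠ H q) ∧
    ∀ x y : ℝ, (y - E.eval x) * deriv (fun s : ℝ => H (s, y)) x
      - x * deriv (fun s : ℝ => H (x, s)) y = 0

section series

/-- A coefficient sequence of an entire function. -/
def Entire (a : ℕ → ℝ) : Prop := ∀ r : ℝ, 0 ≤ r → Summable fun n => |a n| * r ^ n

/-- the sum of the power series -/
noncomputable def ps (a : ℕ → ℝ) (z : ℝ) : ℝ := ∑' n, a n * z ^ n

/-- the coefficient sequence of the derivative -/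
def dc (a : ℕ → ℝ) : ℕ → ℝ := fun n => (n + 1) * a (n + 1)

lemma entire_dc {a : ℕ → ℝ} (ha : Entire a) : Entire (dc a) := by
  intro r hr
  have h1 := ha (2 * (r + 1)) (by positivity)
  have h2 := (summable_nat_add_iff 1).2 h1
  refine Summable.of_nonneg_of_le (fun n => by positivity) (fun n => ?_) h2
  simp only [dc]
  rw [abs_mul, abs_of_nonneg (by positivity : (0 : ℝ) ≤ (n : ℝ) + 1)]
  have h3 : ((n : ℝ) + 1) * r ^ n ≤ (2 * (r + 1)) ^ (n + 1) := by
    have h4 : ((n : ℝ) + 1) ≤ 2 ^ (n + 1) := by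
      have : n + 1 < 2 ^ (n + 1) := Nat.lt_two_pow_self
      exact_mod_cast this.le
    have h5 : r ^ n ≤ (r + 1) ^ (n + 1) := by
      calc r ^ n ≤ (r + 1) ^ n := pow_le_pow_left₀ hr (by linarith) n
        _ ≤ (r + 1) ^ (n + 1) := pow_le_pow_right₀ (by linarith) (by omega)
    rw [mul_pow]
    exact mul_le_mul h4 h5 (by positivity) (by positivity)
  calc ((n : ℝ) + 1) * |a (n + 1)| * r ^ n = |a (n + 1)| * (((n : ℝ) + 1) * r ^ n) := by ring
    _ ≤ |a (n + 1)| * (2 * (r + 1)) ^ (n + 1) := mul_le_mul_of_nonneg_left h3 (abs_nonneg _)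

lemma summable_ps {a : ℕ → ℝ} (ha : Entire a) (z : ℝ) : Summable fun n => a n * z ^ n := by
  refine Summable.of_norm ?_
  refine (ha |z| (abs_nonneg _)).congr fun n => ?_
  rw [Real.norm_eq_abs, abs_mul, abs_pow]

lemma hasDerivAt_ps {a : ℕ → ℝ} (ha : Entire a) (z : ℝ) : HasDerivAt (ps a) (ps (dc a) z) z := by
  have hsum := entire_dc ha (|z| + 1) (by positivity)
  -- termwise
  have key : HasDerivAt (fun w => ∑' n, a (n + 1) * w ^ (n + 1)) (∑' n, dc a n * z ^ n) z := by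
    refine hasDerivAt_tsum_of_isPreconnected (g := fun n w => a (n + 1) * w ^ (n + 1))
      (g' := fun n w => dc a n * w ^ n) (t := Metric.ball (0 : ℝ) (|z| + 1)) (y₀ := 0) hsum
      Metric.isOpen_ball (convex_ball _ _).isPreconnected (fun n w _ => ?_) (fun n w hw => ?_)
      (Metric.mem_ball_self (by positivity)) ?_ ?_
    · have h1 := (hasDerivAt_pow (n + 1) w).const_mul (a (n + 1))
      refine h1.congr_deriv ?_
      change a (n + 1) * (((n + 1 : ℕ) : ℝ) * w ^ (n + 1 - 1)) = ((n : ℝ) + 1) * a (n + 1) * w ^ n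
      rw [Nat.add_sub_cancel]
      push_cast
      ring
    · rw [Real.norm_eq_abs, abs_mul, abs_pow]
      rw [mem_ball_zero_iff, Real.norm_eq_abs] at hw
      exact mul_le_mul_of_nonneg_left (pow_le_pow_left₀ (abs_nonneg _) hw.le n) (abs_nonneg _)
    · simp [summable_zero]
    · rw [mem_ball_zero_iff, Real.norm_eq_abs]
      linarith
  have h2 : ps a = fun w => a 0 + ∑' n, a (n + 1) * w ^ (n + 1) := by
    funext w
    rw [ps, (summable_ps ha w).tsum_eq_zero_add]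
    simp
  rw [h2]
  exact key.const_add (a 0)

lemma analyticAt_ps {a : ℕ → ℝ} (ha : Entire a) (z : ℝ) : AnalyticAt ℝ (ps a) z := by
  set p := FormalMultilinearSeries.ofScalars ℝ a with hp
  have hr : p.radius = ⊤ := by
    refine p.radius_eq_top_of_summable_norm fun r => ?_
    refine Summable.of_nonneg_of_le (fun n => by positivity) (fun n => ?_) (ha r r.2)
    refine mul_le_mul_of_nonneg_right ?_ (by positivity)
    rw [hp, FormalMultilinearSeries.ofScalars_norm, Real.norm_eq_abs]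
  have hf : HasFPowerSeriesOnBall p.sum p 0 p.radius :=
    p.hasFPowerSeriesOnBall (by rw [hr]; exact ENNReal.zero_lt_top)
  have hsum : p.sum = ps a := by
    funext w
    simp [FormalMultilinearSeries.sum, hp, ps, mul_comm]
  rw [← hsum]
  refine hf.analyticAt_of_mem ?_
  rw [hr]
  simp

/-- Coefficients of the solution of `v'' = k z v`, `v(0) = x₀`, `v'(0) = x₁`. -/
noncomputable def co (k x₀ x₁ : ℝ) : ℕ → ℝ
  | 0 => x₀
  | 1 => x₁
  | 2 => 0
  | (n + 3) => k * co k x₀ x₁ n / (((n : ℝ) + 3) * ((n : ℝ) + 2))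

lemma entire_co (k x₀ x₁ : ℝ) : Entire (co k x₀ x₁) := by
  intro r hr
  set R := 2 * r + 1 with hR
  have hR0 : 0 < R := by positivity
  obtain ⟨N, hN⟩ := exists_nat_ge (|k| * R ^ 3)
  set b : ℕ → ℝ := fun n => |co k x₀ x₁ n| * R ^ n with hb
  set C := ∑ i ∈ Finset.range (N + 4), b i with hC
  have hbC : ∀ n, b n ≤ C := by
    intro n
    induction n using Nat.strong_induction_on with
    | _ n ih =>
      by_cases h : n < N + 4
      · exact Finset.single_le_sum (f := b) (fun i _ => by simp only [hb]; positivity)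
          (Finset.mem_range.2 h)
      · obtain ⟨m, rfl⟩ : ∃ m, n = m + 3 := ⟨n - 3, by omega⟩
        refine le_trans ?_ (ih m (by omega))
        simp only [hb]
        have h1 : co k x₀ x₁ (m + 3) = k * co k x₀ x₁ m / (((m : ℝ) + 3) * ((m : ℝ) + 2)) := rfl
        rw [h1, abs_div, abs_mul, abs_of_pos (by positivity : (0 : ℝ) < ((m : ℝ) + 3) * ((m : ℝ) + 2)),
          div_mul_eq_mul_div, div_le_iff₀ (by positivity)]
        have h2 : |k| * R ^ 3 ≤ ((m : ℝ) + 3) * ((m : ℝ) + 2) := by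
          have h3 : (N : ℝ) ≤ m := by exact_mod_cast (by omega : N ≤ m)
          nlinarith
        calc |k| * |co k x₀ x₁ m| * R ^ (m + 3) = (|co k x₀ x₁ m| * R ^ m) * (|k| * R ^ 3) := by ring
          _ ≤ (|co k x₀ x₁ m| * R ^ m) * (((m : ℝ) + 3) * ((m : ℝ) + 2)) :=
            mul_le_mul_of_nonneg_left h2 (by positivity)
  refine Summable.of_nonneg_of_le (fun n => by positivity) (fun n => ?_)
    ((summable_geometric_two).mul_left C)
  have h4 : r ^ n ≤ R ^ n * (1 / 2) ^ n := by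
    rw [← mul_pow]
    exact pow_le_pow_left₀ hr (by rw [hR]; linarith) n
  calc |co k x₀ x₁ n| * r ^ n ≤ |co k x₀ x₁ n| * (R ^ n * (1 / 2) ^ n) :=
        mul_le_mul_of_nonneg_left h4 (abs_nonneg _)
    _ = b n * (1 / 2) ^ n := by simp only [hb]; ring
    _ ≤ C * (1 / 2) ^ n := mul_le_mul_of_nonneg_right (hbC n) (by positivity)

lemma ps_ode (k x₀ x₁ z : ℝ) :
    ps (dc (dc (co k x₀ x₁))) z = k * z * ps (co k x₀ x₁) z := by
  have hE := entire_dc (entire_dc (entire_co k x₀ x₁))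
  rw [ps, (summable_ps hE z).tsum_eq_zero_add]
  have h0 : dc (dc (co k x₀ x₁)) 0 = 0 := by
    simp [dc, co]
  have h1 : ∀ n, dc (dc (co k x₀ x₁)) (n + 1) * z ^ (n + 1) = k * z * (co k x₀ x₁ n * z ^ n) := by
    intro n
    have h2 : co k x₀ x₁ (n + 3) = k * co k x₀ x₁ n / (((n : ℝ) + 3) * ((n : ℝ) + 2)) := rfl
    have h3 : dc (dc (co k x₀ x₁)) (n + 1) =
        ((n + 1 : ℕ) + 1 : ℝ) * (((n + 1 + 1 : ℕ) + 1 : ℝ) * co k x₀ x₁ (n + 3)) := rfl
    rw [h3, h2]
    have h4 : (n : ℝ) + 3 ≠ 0 := by positivity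
    have h5 : (n : ℝ) + 2 ≠ 0 := by positivity
    push_cast
    have h6 : (n : ℝ) + 1 + 1 = n + 2 := by ring
    have h7 : (n : ℝ) + 2 + 1 = n + 3 := by ring
    rw [h6, h7]
    field_simp
    ring
  simp_rw [h1, h0, tsum_mul_left]
  rw [ps]
  ring

lemma ps_zero (a : ℕ → ℝ) : ps a 0 = a 0 := by
  rw [ps, tsum_eq_single 0]
  · simp
  · intro n hn
    simp [hn]

end series

lemma quot_deriv {f g : ℝ → ℝ} {f' g' x : ℝ} (hf : HasDerivAt f f' x) (hg : HasDerivAt g g' x)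
    (h : f x ^ 2 + g x ^ 2 ≠ 0) :
    HasDerivAt (fun s => f s ^ 2 / (f s ^ 2 + g s ^ 2))
      ((2 * f x * f' * (f x ^ 2 + g x ^ 2) - f x ^ 2 * (2 * f x * f' + 2 * g x * g')) /
        (f x ^ 2 + g x ^ 2) ^ 2) x := by
  have h1 : HasDerivAt (fun s => f s ^ 2) (2 * f x * f') x := by
    refine (hf.pow 2).congr_deriv ?_
    push_cast
    ring
  have h2 : HasDerivAt (fun s => g s ^ 2) (2 * g x * g') x := by
    refine (hg.pow 2).congr_deriv ?_
    push_cast
    ring
  exact h1.div (h1.add h2) h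

lemma quot_alg (A B Ax Ay Bx By p q μ : ℝ) (hA : p * Ax - q * Ay = μ * A)
    (hB : p * Bx - q * By = μ * B) :
    p * ((2 * A * Ax * (A ^ 2 + B ^ 2) - A ^ 2 * (2 * A * Ax + 2 * B * Bx)) /
      (A ^ 2 + B ^ 2) ^ 2) -
    q * ((2 * A * Ay * (A ^ 2 + B ^ 2) - A ^ 2 * (2 * A * Ay + 2 * B * By)) /
      (A ^ 2 + B ^ 2) ^ 2) = 0 := by
  rw [mul_div_assoc', mul_div_assoc', ← sub_div, div_eq_zero_iff]
  left
  linear_combination (2 * A * (A ^ 2 + B ^ 2) - 2 * A ^ 3) * hA - 2 * A ^ 2 * B * hB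

/-- an even polynomial of degree four, evaluated -/
lemma eval_even_quartic (E : Polynomial ℝ) (heven : ∀ x : ℝ, E.eval (-x) = E.eval x)
    (hdeg : E.natDegree = 4) :
    ∃ a b c : ℝ, a ≠ 0 ∧ ∀ x : ℝ, E.eval x = a * x ^ 4 + b * x ^ 2 + c := by
  have hev : ∀ x : ℝ, E.eval x = E.coeff 0 + E.coeff 1 * x + E.coeff 2 * x ^ 2 +
      E.coeff 3 * x ^ 3 + E.coeff 4 * x ^ 4 := by
    intro x
    rw [Polynomial.eval_eq_sum_range, hdeg]
    simp [Finset.sum_range_succ]
  have h1 := heven 1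
  have h2 := heven 2
  rw [hev, hev] at h1 h2
  have h3 : E.coeff 3 = 0 := by linarith
  have h4 : E.coeff 1 = 0 := by linarith
  refine ⟨E.coeff 4, E.coeff 2, E.coeff 0, ?_, fun x => ?_⟩
  · have : E.leadingCoeff ≠ 0 := by
      rw [Polynomial.leadingCoeff_ne_zero]
      rintro rfl
      simp at hdeg
    rwa [Polynomial.leadingCoeff, hdeg] at this
  · rw [hev, h3, h4]
    ring

/-- **Main theorem.** For every even polynomial `E` of degree `4` the Lienard system
`x' = y - E(x)`, `y' = -x` has a global analytic first integral. -/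
theorem result (E : Polynomial ℝ) (heven : ∀ x : ℝ, E.eval (-x) = E.eval x)
    (hdeg : E.natDegree = 4) : HasGlobalAnalyticFirstIntegral E := by
  obtain ⟨a, b, c, ha, hE⟩ := eval_even_quartic E heven hdeg
  set y₀ : ℝ := c - b ^ 2 / (4 * a) with hy₀
  set k : ℝ := 4 * a with hk
  -- two solutions of `v'' = k z v`
  set c₁ := co k 1 0 with hc₁
  set c₂ := co k 0 1 with hc₂
  have he₁ : Entire c₁ := entire_co k 1 0
  have he₂ : Entire c₂ := entire_co k 0 1
  set v₁ := ps c₁ with hv₁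
  set v₂ := ps c₂ with hv₂
  set w₁ := ps (dc c₁) with hw₁
  set w₂ := ps (dc c₂) with hw₂
  have hd₁ : ∀ z, HasDerivAt v₁ (w₁ z) z := fun z => hasDerivAt_ps he₁ z
  have hd₂ : ∀ z, HasDerivAt v₂ (w₂ z) z := fun z => hasDerivAt_ps he₂ z
  have hdd₁ : ∀ z, HasDerivAt w₁ (k * z * v₁ z) z := fun z => by
    rw [hv₁, hc₁, ← ps_ode]
    exact hasDerivAt_ps (entire_dc he₁) z
  have hdd₂ : ∀ z, HasDerivAt w₂ (k * z * v₂ z) z := fun z => by
    rw [hv₂, hc₂, ← ps_ode]
    exact hasDerivAt_ps (entire_dc he₂) z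
  have hv₁0 : v₁ 0 = 1 := by rw [hv₁, ps_zero]; rfl
  have hv₂0 : v₂ 0 = 0 := by rw [hv₂, ps_zero]; rfl
  have hw₁0 : w₁ 0 = 0 := by rw [hw₁, ps_zero]; simp [dc, hc₁, co]
  have hw₂0 : w₂ 0 = 1 := by rw [hw₂, ps_zero]; simp [dc, hc₂, co]
  -- the Wronskian
  have hWder : ∀ z, HasDerivAt (fun z => v₁ z * w₂ z - w₁ z * v₂ z) 0 z := by
    intro z
    have h := ((hd₁ z).mul (hdd₂ z)).sub ((hdd₁ z).mul (hd₂ z))
    refine h.congr_deriv ?_
    ring
  have hW : ∀ z, v₁ z * w₂ z - w₁ z * v₂ z = 1 := by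
    intro z
    have h := is_const_of_deriv_eq_zero (f := fun z => v₁ z * w₂ z - w₁ z * v₂ z)
      (fun z => (hWder z).differentiableAt) (fun z => (hWder z).deriv) z 0
    rw [h, hv₁0, hv₂0, hw₁0, hw₂0]
    ring
  -- the two semi-invariants
  set M₁ : ℝ × ℝ → ℝ := fun p => w₁ (p.2 - y₀) + (b + 2 * a * p.1 ^ 2) * v₁ (p.2 - y₀) with hM₁
  set M₂ : ℝ × ℝ → ℝ := fun p => w₂ (p.2 - y₀) + (b + 2 * a * p.1 ^ 2) * v₂ (p.2 - y₀) with hM₂
  have hpos : ∀ p, M₁ p ^ 2 + M₂ p ^ 2 ≠ 0 := by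
    intro p hp
    have h1 : M₁ p = 0 := by nlinarith [sq_nonneg (M₁ p), sq_nonneg (M₂ p)]
    have h2 : M₂ p = 0 := by nlinarith [sq_nonneg (M₁ p), sq_nonneg (M₂ p)]
    have h3 := hW (p.2 - y₀)
    simp only [hM₁, hM₂] at h1 h2
    have h4 : v₁ (p.2 - y₀) * w₂ (p.2 - y₀) - w₁ (p.2 - y₀) * v₂ (p.2 - y₀) = 0 := by
      linear_combination v₁ (p.2 - y₀) * h2 - v₂ (p.2 - y₀) * h1
    rw [h4] at h3
    exact zero_ne_one h3
  refine ⟨fun p => M₁ p ^ 2 / (M₁ p ^ 2 + M₂ p ^ 2), ?_, ?_, ?_⟩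
  · intro p _
    have hz : AnalyticAt ℝ (fun p : ℝ × ℝ => p.2 - y₀) p := analyticAt_snd.sub analyticAt_const
    have hx : AnalyticAt ℝ (fun p : ℝ × ℝ => b + 2 * a * p.1 ^ 2) p :=
      analyticAt_const.add (analyticAt_const.mul (analyticAt_fst.pow 2))
    have hA₁ : AnalyticAt ℝ M₁ p :=
      ((analyticAt_ps (entire_dc he₁) (p.2 - y₀)).comp_of_eq hz rfl).add
        (hx.mul ((analyticAt_ps he₁ (p.2 - y₀)).comp_of_eq hz rfl))
    have hA₂ : AnalyticAt ℝ M₂ p :=
      ((analyticAt_ps (entire_dc he₂) (p.2 - y₀)).comp_of_eq hz rfl).add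
        (hx.mul ((analyticAt_ps he₂ (p.2 - y₀)).comp_of_eq hz rfl))
    exact (hA₁.pow 2).div ((hA₁.pow 2).add (hA₂.pow 2)) (hpos p)
  · by_contra hcon
    push Not at hcon
    have hval : ∀ x : ℝ, M₁ (x, y₀) = b + 2 * a * x ^ 2 ∧ M₂ (x, y₀) = 1 := by
      intro x
      simp only [hM₁, hM₂, sub_self, hv₁0, hv₂0, hw₁0, hw₂0]
      constructor <;> ring
    have h1 := hcon (0, y₀) (1, y₀)
    have h2 := hcon (0, y₀) (2, y₀)
    simp only [(hval _).1, (hval _).2] at h1 h2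
    rw [div_eq_div_iff (by positivity) (by positivity)] at h1 h2
    have h3 : a * (b + a) = 0 := by linarith
    have h4 : a * (b + 4 * a) = 0 := by linarith
    have h5 : b + a = 0 := (mul_eq_zero.1 h3).resolve_left ha
    have h6 : b + 4 * a = 0 := (mul_eq_zero.1 h4).resolve_left ha
    exact ha (by linarith)
  · intro x y
    set z := y - y₀ with hz
    -- derivatives in `x`
    have hx₁ : HasDerivAt (fun s : ℝ => M₁ (s, y)) (4 * a * x * v₁ z) x := by
      have h := (((hasDerivAt_pow 2 x).const_mul (2 * a)).const_add b).mul_const (v₁ z)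
      have h' := h.const_add (w₁ z)
      refine h'.congr_deriv ?_
      push_cast
      ring
    have hx₂ : HasDerivAt (fun s : ℝ => M₂ (s, y)) (4 * a * x * v₂ z) x := by
      have h := (((hasDerivAt_pow 2 x).const_mul (2 * a)).const_add b).mul_const (v₂ z)
      have h' := h.const_add (w₂ z)
      refine h'.congr_deriv ?_
      push_cast
      ring
    -- derivatives in `y`
    have hsub : HasDerivAt (fun s : ℝ => s - y₀) 1 y := (hasDerivAt_id y).sub_const y₀
    have hy₁ : HasDerivAt (fun s : ℝ => M₁ (x, s))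
        (k * z * v₁ z + (b + 2 * a * x ^ 2) * w₁ z) y := by
      have h1 := (hdd₁ z).comp y hsub
      have h2 := ((hd₁ z).comp y hsub).const_mul (b + 2 * a * x ^ 2)
      refine (h1.add h2).congr_deriv ?_
      ring
    have hy₂ : HasDerivAt (fun s : ℝ => M₂ (x, s))
        (k * z * v₂ z + (b + 2 * a * x ^ 2) * w₂ z) y := by
      have h1 := (hdd₂ z).comp y hsub
      have h2 := ((hd₂ z).comp y hsub).const_mul (b + 2 * a * x ^ 2)
      refine (h1.add h2).congr_deriv ?_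
      ring
    have hHx := quot_deriv hx₁ hx₂ (hpos (x, y))
    have hHy := quot_deriv hy₁ hy₂ (hpos (x, y))
    rw [hHx.deriv, hHy.deriv]
    have h4a : 4 * a * y₀ = 4 * a * c - b ^ 2 := by
      have : (4 : ℝ) * a ≠ 0 := by positivity
      rw [hy₀, hk]
      field_simp
    have hy : y = z + y₀ := by rw [hz]; ring
    refine quot_alg _ _ _ _ _ _ _ _ (-x * (b + 2 * a * x ^ 2)) ?_ ?_
    · change (y - E.eval x) * (4 * a * x * v₁ z) -
        x * (k * z * v₁ z + (b + 2 * a * x ^ 2) * w₁ z) =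
        -x * (b + 2 * a * x ^ 2) * (w₁ z + (b + 2 * a * x ^ 2) * v₁ z)
      rw [hE, hk]
      clear_value z v₁ w₁ y₀
      subst hy
      linear_combination (x * v₁ z) * h4a
    · change (y - E.eval x) * (4 * a * x * v₂ z) -
        x * (k * z * v₂ z + (b + 2 * a * x ^ 2) * w₂ z) =
        -x * (b + 2 * a * x ^ 2) * (w₂ z + (b + 2 * a * x ^ 2) * v₂ z)
      rw [hE, hk]
      clear_value z v₂ w₂ y₀
      subst hy
      linear_combination (x * v₂ z) * h4a

end Pool.Agent.Results.MP_b09cb0_an.QuarticFirstIntegral
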